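import Pool.Agent.P.MP_232e98_an.Kernel

set_option autoImplicit false

open scoped ComplexConjugate InnerProductSpace ComplexOrder Topology
open Filter Finset

namespace Pool.Agent.P.MP_232e98_an

variable {E : Type} [NormedAddCommGroup E] [InnerProductSpace ℂ E]

lemma root_sum {M : ℕ} {ω : ℂ} (hω : IsPrimitiveRoot ω M) (h1 : ‖ω‖ = 1) {m n : ℕ}
    (hm : m < M) (hn : n < M) :
    ∑ k ∈ range M, conj ((ω ^ k) ^ m) * (ω ^ k) ^ n = if m = n then (M : ℂ) else 0 := by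
  have hc : ∀ j : ℕ, conj (ω ^ j) * ω ^ j = 1 := by
    intro j
    rw [Complex.conj_mul', norm_pow, h1]
    simp
  have h2 : ∀ k, conj ((ω ^ k) ^ m) * (ω ^ k) ^ n = (conj (ω ^ m) * ω ^ n) ^ k := by
    intro k
    simp only [map_pow, mul_pow, ← pow_mul, mul_comm]
  simp only [h2]
  split_ifs with h
  · subst h
    simp [-map_pow, hc]
  · have h3 : conj (ω ^ m) * ω ^ n ≠ 1 := by
      intro h3
      apply h
      apply hω.pow_inj hm hn
      calc ω ^ m = ω ^ m * (conj (ω ^ m) * ω ^ n) := by rw [h3, mul_one]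
        _ = (conj (ω ^ m) * ω ^ m) * ω ^ n := by ring
        _ = ω ^ n := by rw [hc, one_mul]
    have h4 : (conj (ω ^ m) * ω ^ n) ^ M = 1 := by
      rw [mul_pow, ← map_pow, ← pow_mul, ← pow_mul, mul_comm m, mul_comm n, pow_mul, pow_mul,
        hω.pow_eq_one]
      simp
    have h5 := mul_geom_sum (conj (ω ^ m) * ω ^ n) M
    rw [h4, sub_self] at h5
    exact (mul_eq_zero.1 h5).resolve_left (sub_ne_zero.2 h3)

lemma parseval (M : ℕ) (hM : 0 < M) (γ : ℕ → E) :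
    ∃ u : ℂ, ‖u‖ = 1 ∧ ‖∑ n ∈ range M, u ^ n • γ n‖ ^ 2 ≤ ∑ n ∈ range M, ‖γ n‖ ^ 2 := by
  set ω : ℂ := Complex.exp (2 * Real.pi * Complex.I / M) with hωdef
  have hω : IsPrimitiveRoot ω M := Complex.isPrimitiveRoot_exp M hM.ne'
  have h1 : ‖ω‖ = 1 := hω.norm'_eq_one hM.ne'
  have key : ∑ k ∈ range M, ⟪∑ n ∈ range M, (ω ^ k) ^ n • γ n, ∑ n ∈ range M, (ω ^ k) ^ n • γ n⟫_ℂ
      = ∑ k ∈ range M, ∑ n ∈ range M, ⟪γ n, γ n⟫_ℂ := by
    have e1 : ∀ k, ⟪∑ n ∈ range M, (ω ^ k) ^ n • γ n, ∑ n ∈ range M, (ω ^ k) ^ n • γ n⟫_ℂ =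
        ∑ m ∈ range M, ∑ n ∈ range M, conj ((ω ^ k) ^ m) * (ω ^ k) ^ n * ⟪γ m, γ n⟫_ℂ := by
      intro k
      rw [sum_inner]
      refine sum_congr rfl fun m _ => ?_
      rw [inner_sum]
      refine sum_congr rfl fun n _ => ?_
      rw [inner_smul_left, inner_smul_right]
      ring
    simp only [e1]
    rw [sum_comm, sum_const, card_range, nsmul_eq_mul, mul_sum]
    refine sum_congr rfl fun m hm => ?_
    rw [sum_comm]
    have e2 : ∀ n ∈ range M, ∑ k ∈ range M, conj ((ω ^ k) ^ m) * (ω ^ k) ^ n * ⟪γ m, γ n⟫_ℂ =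
        if m = n then (M : ℂ) * ⟪γ m, γ n⟫_ℂ else 0 := by
      intro n hn
      rw [← sum_mul, root_sum hω h1 (mem_range.1 hm) (mem_range.1 hn)]
      split_ifs <;> simp
    rw [sum_congr rfl e2, sum_ite_eq]
    simp [hm]
  have key2 : ∑ k ∈ range M, ‖∑ n ∈ range M, (ω ^ k) ^ n • γ n‖ ^ 2
      = ∑ k ∈ range M, ∑ n ∈ range M, ‖γ n‖ ^ 2 := by
    simp only [inner_self_eq_norm_sq_to_K] at key
    exact_mod_cast key
  obtain ⟨k, _, hk⟩ := exists_le_of_sum_le (nonempty_range_iff.2 hM.ne') key2.le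
  exact ⟨ω ^ k, by rw [norm_pow, h1, one_pow], hk⟩

/-- The weights. -/
noncomputable def wt (n : ℕ) : ℝ := √(((n : ℝ) + 1) * (1 / 2) ^ n)

lemma wt_nonneg (n : ℕ) : 0 ≤ wt n := Real.sqrt_nonneg _

lemma wt_sq (n : ℕ) : wt n ^ 2 = ((n : ℝ) + 1) * (1 / 2) ^ n :=
  Real.sq_sqrt (by positivity)

lemma wt_zero : wt 0 = 1 := by simp [wt]

lemma wt_one : wt 1 = 1 := by
  unfold wt
  norm_num

lemma wt_sq_lt (n : ℕ) : wt (n + 2) ^ 2 < 1 := by
  rw [wt_sq]
  induction n with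
  | zero => norm_num
  | succ n ih =>
    have h : (0 : ℝ) < (1 / 2) ^ (n + 2) := by positivity
    have hn : (0 : ℝ) ≤ n := Nat.cast_nonneg n
    push_cast at ih ⊢
    rw [show n + 1 + 2 = (n + 2) + 1 from rfl, pow_succ]
    nlinarith

lemma wt_sq_le (n : ℕ) : wt n ^ 2 ≤ 1 := by
  match n with
  | 0 => simp [wt_zero]
  | 1 => simp [wt_one]
  | n + 2 => exact (wt_sq_lt n).le

lemma summable_wt_sq : Summable fun n => wt n ^ 2 := by
  simp only [wt_sq]
  have := (hasSum_choose_mul_geometric_of_norm_lt_one (𝕜 := ℝ) 1 (r := 1 / 2)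
    (by norm_num)).summable
  simpa using this

lemma hasSum_wt {t : ℂ} (ht : ‖t‖ < 1) :
    HasSum (fun n => ((wt n : ℂ)) ^ 2 * t ^ n) (((1 - t / 2) ^ 2)⁻¹) := by
  have h := hasSum_choose_mul_geometric_of_norm_lt_one (𝕜 := ℂ) 1 (r := t / 2)
    (by rw [norm_div]; simp; linarith)
  rw [one_div] at h
  convert! h using 2 with n
  rw [← Complex.ofReal_pow, wt_sq]
  simp [div_pow]
  ring

theorem analytic [CompleteSpace E] {X : Type} (ζ : X → ℂ) (hζ : ∀ x, ‖ζ x‖ < 1)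
    (hsurj : ∀ u : ℂ, ‖u‖ < 1 → ∃ x, ζ x = u) (φ : X → E) (hφ : ∀ x, ‖φ x‖ ≤ 1)
    (h : IsKernel (fun z w => ((1 - ζ z * conj (ζ w) / 2) ^ 2)⁻¹ * ⟪φ w, φ z⟫_ℂ
      - ζ z * conj (ζ w))) :
    ∃ a0 a1 : E, ⟪a0, a1⟫_ℂ = 0 ∧ ‖a0‖ ^ 2 + ‖a1‖ ^ 2 = 1 ∧
      ∀ z, ζ z = ⟪a0, φ z⟫_ℂ + ζ z * ⟪a1, φ z⟫_ℂ := by
  have hmem : ∀ z, Memℓp (fun n : ℕ => (((wt n : ℂ) * ζ z ^ n) • φ z : E)) 2 := by
    intro z
    apply memℓp_gen
    refine Summable.of_nonneg_of_le (fun n => by positivity) (fun n => ?_) summable_wt_sq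
    simp only [ENNReal.toReal_ofNat, Real.rpow_ofNat]
    apply pow_le_pow_left₀ (norm_nonneg _)
    rw [norm_smul, norm_mul, norm_pow, Complex.norm_real, Real.norm_of_nonneg (wt_nonneg n)]
    have h1 : ‖ζ z‖ ^ n ≤ 1 := pow_le_one₀ (norm_nonneg _) (hζ z).le
    calc wt n * ‖ζ z‖ ^ n * ‖φ z‖ ≤ wt n * 1 * 1 := by
          gcongr
          · exact mul_nonneg (wt_nonneg n) zero_le_one
          · exact wt_nonneg n
          · exact hφ z
      _ = wt n := by ring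
  let Φ : X → lp (fun _ : ℕ => E) 2 := fun z => ⟨_, hmem z⟩
  have hΦ : ∀ z n, Φ z n = ((wt n : ℂ) * ζ z ^ n) • φ z := fun _ _ => rfl
  have hinner : ∀ z w, ⟪Φ w, Φ z⟫_ℂ = ((1 - ζ z * conj (ζ w) / 2) ^ 2)⁻¹ * ⟪φ w, φ z⟫_ℂ := by
    intro z w
    have ht : ‖ζ z * conj (ζ w)‖ < 1 := by
      rw [norm_mul, RCLike.norm_conj]
      exact mul_lt_one_of_nonneg_of_lt_one_left (norm_nonneg _) (hζ z) (hζ w).le
    refine (lp.hasSum_inner (Φ w) (Φ z)).unique ?_
    convert! (hasSum_wt ht).mul_right ⟪φ w, φ z⟫_ℂ using 2 with n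
    rw [hΦ, hΦ, inner_smul_left, inner_smul_right]
    simp only [map_mul, Complex.conj_ofReal, map_pow, mul_pow]
    ring
  obtain ⟨a, ha1, ha2⟩ := exists_vector Φ ζ (h.congr fun z w => by rw [hinner])
  set β : ℕ → E := fun n => (wt n : ℂ) • a n with hβ
  have hβn : ∀ n, ‖β n‖ = wt n * ‖a n‖ := by
    intro n
    rw [hβ]
    simp only
    rw [norm_smul, Complex.norm_real, Real.norm_of_nonneg (wt_nonneg n)]
  have hsa : HasSum (fun n => ‖a n‖ ^ 2) (‖a‖ ^ 2) := by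
    have := lp.hasSum_norm (p := 2) (by norm_num) a
    simpa using this
  have hsum : ∀ z, HasSum (fun n => ⟪(conj (ζ z)) ^ n • β n, φ z⟫_ℂ) (ζ z) := by
    intro z
    have h1 := lp.hasSum_inner (𝕜 := ℂ) a (Φ z)
    rw [ha2] at h1
    convert! h1 using 2 with n
    rw [hΦ, hβ]
    simp only [inner_smul_left, inner_smul_right, map_pow, Complex.conj_conj, Complex.conj_ofReal]
    ring
  have hsβ : Summable fun n => ‖β n‖ := by
    refine Summable.of_nonneg_of_le (fun n => norm_nonneg _) (fun n => ?_)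
      (summable_wt_sq.add hsa.summable)
    rw [hβn]
    nlinarith [sq_nonneg (wt n - ‖a n‖), mul_nonneg (wt_nonneg n) (norm_nonneg (a n))]
  have hβle : ∀ n, ‖β n‖ ^ 2 ≤ ‖a n‖ ^ 2 := by
    intro n
    rw [hβn, mul_pow]
    nlinarith [wt_sq_le n, sq_nonneg ‖a n‖]
  have hsβ2 : Summable fun n => ‖β n‖ ^ 2 :=
    Summable.of_nonneg_of_le (fun n => by positivity) hβle hsa.summable
  set S : ℝ := ∑' n, ‖β n‖ ^ 2 with hS
  have hS0 : 0 ≤ S := tsum_nonneg fun n => by positivity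
  have hρ : ∀ ρ : ℝ, 0 ≤ ρ → ρ < 1 → ρ ≤ √S := by
    intro ρ hρ0 hρ1
    have hlim : Tendsto (fun M : ℕ => √S + ∑' n, ‖β (n + M)‖) atTop (𝓝 (√S + 0)) :=
      tendsto_const_nhds.add (tendsto_sum_nat_add fun n => ‖β n‖)
    rw [add_zero] at hlim
    refine ge_of_tendsto hlim ?_
    filter_upwards [eventually_gt_atTop 0] with M hM
    obtain ⟨u, hu1, hu2⟩ := parseval M hM (fun n => ((ρ : ℂ) ^ n) • β n)
    have hn : ‖conj (u * ρ)‖ = ρ := by
      rw [RCLike.norm_conj, norm_mul, hu1, one_mul, Complex.norm_real, Real.norm_of_nonneg hρ0]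
    obtain ⟨x, hx⟩ := hsurj (conj (u * ρ)) (by rw [hn]; exact hρ1)
    have h1 := hsum x
    rw [hx, Complex.conj_conj] at h1
    have h2 := (h1.summable.sum_add_tsum_nat_add M).trans h1.tsum_eq
    have h3 : ‖∑ n ∈ range M, ⟪(u * ρ) ^ n • β n, φ x⟫_ℂ‖ ≤ √S := by
      rw [← sum_inner]
      refine (norm_inner_le_norm _ _).trans ?_
      refine (mul_le_of_le_one_right (norm_nonneg _) (hφ x)).trans ?_
      apply Real.le_sqrt_of_sq_le
      simp only [smul_smul, ← mul_pow] at hu2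
      refine hu2.trans ?_
      refine le_trans (sum_le_sum fun n _ => ?_) (hsβ2.sum_le_tsum (range M)
        fun n _ => by positivity)
      apply pow_le_pow_left₀ (norm_nonneg _)
      rw [norm_smul, norm_pow, Complex.norm_real, Real.norm_of_nonneg hρ0]
      exact mul_le_of_le_one_left (norm_nonneg _) (pow_le_one₀ hρ0 hρ1.le)
    have h4 : ‖∑' n, ⟪(u * ρ) ^ (n + M) • β (n + M), φ x⟫_ℂ‖ ≤ ∑' n, ‖β (n + M)‖ := by
      refine tsum_of_norm_bounded ((summable_nat_add_iff M).2 hsβ).hasSum fun n => ?_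
      refine (norm_inner_le_norm _ _).trans ?_
      refine (mul_le_of_le_one_right (norm_nonneg _) (hφ x)).trans ?_
      rw [norm_smul, norm_pow, ← RCLike.norm_conj (u * ρ), hn]
      exact mul_le_of_le_one_left (norm_nonneg _) (pow_le_one₀ hρ0 hρ1.le)
    calc ρ = ‖conj (u * ρ)‖ := hn.symm
      _ ≤ _ := by rw [← h2]; exact (norm_add_le _ _).trans (add_le_add h3 h4)
  have hS1 : 1 ≤ S := by
    have h1 : 1 ≤ √S := by
      by_contra hc
      push Not at hc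
      have := hρ ((√S + 1) / 2) (by positivity) (by linarith)
      linarith
    exact Real.one_le_sqrt.1 h1
  have ha3 : ‖a‖ ^ 2 ≤ 1 := pow_le_one₀ (norm_nonneg _) ha1
  have hzero : ∀ n, a (n + 2) = 0 := by
    intro n
    have h1 := hsa.sub hsβ2.hasSum
    have h2 := le_hasSum h1 (n + 2) fun j _ => sub_nonneg.2 (hβle j)
    rw [hβn, mul_pow] at h2
    have h3 : ‖a (n + 2)‖ ^ 2 ≤ 0 := by
      by_contra hc
      push Not at hc
      nlinarith [wt_sq_lt n]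
    have h4 : ‖a (n + 2)‖ ^ 2 = 0 := le_antisymm h3 (by positivity)
    simpa using h4
  have hzero' : ∀ n, n ∉ range 2 → a n = 0 := by
    intro n hn
    obtain ⟨m, rfl⟩ : ∃ m, n = m + 2 := ⟨n - 2, by simp at hn; omega⟩
    exact hzero m
  have hβ0 : β 0 = a 0 := by simp [hβ, wt_zero]
  have hβ1 : β 1 = a 1 := by simp [hβ, wt_one]
  have e1 : ‖a‖ ^ 2 = ‖a 0‖ ^ 2 + ‖a 1‖ ^ 2 := by
    have := hsa.unique (hasSum_sum_of_ne_finset_zero (s := range 2)
      fun n hn => by simp [hzero' n hn])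
    simpa [sum_range_succ] using this
  have e2 : S = ‖a 0‖ ^ 2 + ‖a 1‖ ^ 2 := by
    have := hsβ2.hasSum.unique (hasSum_sum_of_ne_finset_zero (s := range 2)
      fun n hn => by simp [hβ, hzero' n hn])
    simpa [sum_range_succ, hβ0, hβ1] using this
  have e3 : ‖a 0‖ ^ 2 + ‖a 1‖ ^ 2 = 1 := by linarith
  have e4 : ∀ z, ζ z = ⟪a 0 + conj (ζ z) • a 1, φ z⟫_ℂ := by
    intro z
    have := (hsum z).unique (hasSum_sum_of_ne_finset_zero (s := range 2)
      fun n hn => by simp [hβ, hzero' n hn])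
    rw [inner_add_left]
    simpa only [sum_range_succ, range_zero, sum_empty, zero_add, pow_zero, one_smul, pow_one,
      hβ0, hβ1] using this
  refine ⟨a 0, a 1, ?_, e3, fun z => ?_⟩
  · by_contra hc
    set μ := ⟪a 0, a 1⟫_ℂ with hμ
    have hm : 0 < ‖μ‖ := norm_pos_iff.2 hc
    set m := ‖μ‖ with hmdef
    set c : ℝ := 1 / (m * (1 + m)) with hc'
    have hcpos : 0 < c := by positivity
    have hn : ‖-(c : ℂ) * μ‖ = 1 / (1 + m) := by
      rw [norm_mul, norm_neg, Complex.norm_real, Real.norm_of_nonneg hcpos.le, hc', ← hmdef]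
      field_simp
    have hlt : 1 / (1 + m) < 1 := by
      rw [div_lt_one (by positivity)]; linarith
    obtain ⟨x, hx⟩ := hsurj (-(c : ℂ) * μ) (by rw [hn]; exact hlt)
    have h1 := e4 x
    rw [hx] at h1
    have h2 : ‖-(c : ℂ) * μ‖ ≤ ‖a 0 + conj (-(c : ℂ) * μ) • a 1‖ := by
      calc ‖-(c : ℂ) * μ‖ = ‖⟪a 0 + conj (-(c : ℂ) * μ) • a 1, φ x⟫_ℂ‖ := by rw [← h1]
        _ ≤ _ := (norm_inner_le_norm _ _).trans
          (mul_le_of_le_one_right (norm_nonneg _) (hφ x))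
    have h3 := pow_le_pow_left₀ (norm_nonneg _) h2 2
    rw [@norm_add_sq ℂ, inner_smul_right, ← hμ, norm_smul, RCLike.norm_conj, hn] at h3
    have h4 : RCLike.re (conj (-(c : ℂ) * μ) * μ) = -(m / (1 + m)) := by
      rw [map_mul (starRingEnd ℂ), mul_assoc, Complex.conj_mul', ← hmdef]
      simp only [Complex.conj_ofReal, ← Complex.ofReal_pow, ← Complex.ofReal_neg,
        ← Complex.ofReal_mul, RCLike.re_to_complex, Complex.ofReal_re, hc']
      field_simp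
    rw [h4, mul_pow] at h3
    have h5 : (1 / (1 + m)) ^ 2 * ‖a 1‖ ^ 2 ≤ ‖a 1‖ ^ 2 :=
      mul_le_of_le_one_left (by positivity) (pow_le_one₀ (by positivity) hlt.le)
    have h6 : (1 / (1 + m)) ^ 2 ≤ 1 - 2 * (m / (1 + m)) := by linarith
    have h7 : (1 / (1 + m)) ^ 2 - (1 - 2 * (m / (1 + m))) = (m / (1 + m)) ^ 2 := by
      field_simp
      ring
    have h8 : 0 < (m / (1 + m)) ^ 2 := by positivity
    linarith
  · have := e4 z
    rw [inner_add_left, inner_smul_left, Complex.conj_conj] at this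
    exact this

end Pool.Agent.P.MP_232e98_an
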