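import Mathlib

set_option autoImplicit false

namespace Pool.Agent.P.MP_232e98_an

/-- A kernel on `X`: a positive semidefinite function. -/
def IsKernel {X : Type} (K : X → X → ℂ) : Prop :=
  ∀ (n : ℕ) (x : Fin n → X) (c : Fin n → ℂ),
    ∃ r : ℝ, 0 ≤ r ∧ ∑ i, ∑ j, c i * (starRingEnd ℂ) (c j) * K (x i) (x j) = (r : ℂ)

/-- A complete Pick kernel on `X`. -/
def IsCP {X : Type} (s : X → X → ℂ) : Prop :=
  IsKernel s ∧ (∀ z w, s z w ≠ 0) ∧
    ∃ (δ : X → ℂ) (F : X → X → ℂ), (∀ x, δ x ≠ 0) ∧ IsKernel F ∧ (∀ x, (F x x).re < 1) ∧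
      ∀ z w, s z w = δ z * (starRingEnd ℂ) (δ w) / (1 - F z w)

/-- `s` is a certificate for `k` over `X`. -/
def IsCertificate {X : Type} (k s : X → X → ℂ) : Prop :=
  IsCP s ∧ ∃ h : X → X → ℂ, IsKernel h ∧ ∀ z w, k z w = (1 - h z w) * s z w

/-- `s` is a minimum certificate for `k` over `X`. -/
def IsMinCertificate {X : Type} (k s : X → X → ℂ) : Prop :=
  IsCertificate k s ∧ ∀ t : X → X → ℂ, IsCertificate k t → IsKernel (fun z w => t z w / s z w)

end Pool.Agent.P.MP_232e98_an
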