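import Pool.Agent.P.MP_232e98_an.Defs

set_option autoImplicit false

open scoped ComplexConjugate InnerProductSpace ComplexOrder Topology
open Filter

namespace Pool.Agent.P.MP_232e98_an

variable {X : Type}

lemma isKernel_iff {K : X → X → ℂ} : IsKernel K ↔
    ∀ (n : ℕ) (x : Fin n → X) (c : Fin n → ℂ),
      0 ≤ ∑ i, ∑ j, c i * conj (c j) * K (x i) (x j) := by
  refine forall₃_congr fun n x c => ?_
  constructor
  · rintro ⟨r, hr, h⟩
    rw [h]
    exact Complex.zero_le_real.2 hr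
  · intro h
    refine ⟨(∑ i, ∑ j, c i * conj (c j) * K (x i) (x j)).re, (Complex.nonneg_iff.1 h).1, ?_⟩
    exact (Complex.eq_re_of_ofReal_le (r := 0) (by simpa using h))

lemma IsKernel.fintype {K : X → X → ℂ} (hK : IsKernel K) {ι : Type} [Fintype ι] (x : ι → X)
    (c : ι → ℂ) : 0 ≤ ∑ i, ∑ j, c i * conj (c j) * K (x i) (x j) := by
  have e := (Fintype.equivFin ι).symm
  have h := isKernel_iff.1 hK _ (x ∘ e) (c ∘ e)
  have h2 : ∑ i, ∑ j, (c ∘ e) i * conj ((c ∘ e) j) * K ((x ∘ e) i) ((x ∘ e) j) =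
      ∑ i, ∑ j, c i * conj (c j) * K (x i) (x j) := by
    rw [← e.sum_comp]
    refine Finset.sum_congr rfl fun i _ => ?_
    rw [← e.sum_comp]
    rfl
  rwa [h2] at h

lemma IsKernel.finsupp {K : X → X → ℂ} (hK : IsKernel K) (c : X →₀ ℂ) :
    0 ≤ c.sum fun x a => c.sum fun y b => a * conj b * K x y := by
  have h := hK.fintype (ι := c.support) (fun i => i.1) (fun i => c i.1)
  unfold Finsupp.sum
  rw [← Finset.sum_coe_sort c.support]
  refine h.trans_eq (Finset.sum_congr rfl fun i _ => ?_)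
  exact Finset.sum_coe_sort c.support (fun y => c i * conj (c y) * K i y)

lemma IsKernel.diag_nonneg {K : X → X → ℂ} (hK : IsKernel K) (x : X) : 0 ≤ K x x := by
  simpa using isKernel_iff.1 hK 1 (fun _ => x) (fun _ => 1)

lemma IsKernel.herm {K : X → X → ℂ} (hK : IsKernel K) (x y : X) : conj (K x y) = K y x := by
  have h1 := (Complex.nonneg_iff.1 (hK.diag_nonneg x)).2
  have h2 := (Complex.nonneg_iff.1 (hK.diag_nonneg y)).2
  have h3 := (Complex.nonneg_iff.1 (isKernel_iff.1 hK 2 ![x, y] ![1, 1])).2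
  have h4 := (Complex.nonneg_iff.1 (isKernel_iff.1 hK 2 ![x, y] ![1, Complex.I])).2
  simp [Fin.sum_univ_two] at h3 h4
  apply Complex.ext
  · simp only [Complex.conj_re]; linarith
  · simp only [Complex.conj_im]; linarith

lemma IsKernel.posSemidef {K : X → X → ℂ} (hK : IsKernel K) : (Matrix.of K).PosSemidef := by
  refine ⟨?_, fun c => ?_⟩
  · ext x y
    simp [Matrix.conjTranspose_apply, hK.herm]
  · have h := hK.finsupp (c.mapRange conj (by simp))
    rw [Finsupp.sum_mapRange_index (by simp)] at h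
    refine h.trans_eq (Finsupp.sum_congr fun x _ => ?_)
    rw [Finsupp.sum_mapRange_index (by simp)]
    refine Finsupp.sum_congr fun y _ => ?_
    simp
    ring

lemma isKernel_of_posSemidef {K : X → X → ℂ} (hK : (Matrix.of K).PosSemidef) : IsKernel K := by
  rw [isKernel_iff]
  intro n x c
  have h := (hK.submatrix x).dotProduct_mulVec_nonneg (star c)
  simp only [dotProduct, Matrix.mulVec, star_star, Matrix.submatrix_apply, Matrix.of_apply,
    Pi.star_apply, Finset.mul_sum] at h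
  convert h using 3 with i _ j
  simp
  ring

lemma IsKernel.mul {K L : X → X → ℂ} (hK : IsKernel K) (hL : IsKernel L) :
    IsKernel (fun z w => K z w * L z w) :=
  isKernel_of_posSemidef (hK.posSemidef.hadamard hL.posSemidef)

lemma IsKernel.add {K L : X → X → ℂ} (hK : IsKernel K) (hL : IsKernel L) :
    IsKernel (fun z w => K z w + L z w) :=
  isKernel_of_posSemidef (hK.posSemidef.add hL.posSemidef)

lemma IsKernel.congr {K L : X → X → ℂ} (hK : IsKernel K) (h : ∀ z w, K z w = L z w) :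
    IsKernel L := by
  have : K = L := by ext z w; exact h z w
  rwa [← this]

lemma isKernel_dyad (f : X → ℂ) : IsKernel (fun z w => f z * conj (f w)) := by
  rw [isKernel_iff]
  intro n x c
  have : ∑ i, ∑ j, c i * conj (c j) * (f (x i) * conj (f (x j))) =
      (∑ i, c i * f (x i)) * conj (∑ i, c i * f (x i)) := by
    rw [map_sum, Finset.sum_mul_sum]
    refine Finset.sum_congr rfl fun i _ => Finset.sum_congr rfl fun j _ => ?_
    rw [map_mul]
    ring
  rw [this]
  exact mul_star_self_nonneg _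

lemma isKernel_const {r : ℂ} (hr : 0 ≤ r) : IsKernel (fun _ _ : X => r) := by
  rw [isKernel_iff]
  intro n x c
  have := isKernel_iff.1 (isKernel_dyad (fun _ : X => (1 : ℂ))) n x c
  have h2 := mul_nonneg this hr
  simpa [Finset.sum_mul] using h2

lemma IsKernel.of_tendsto {K : ℕ → X → X → ℂ} {L : X → X → ℂ} (hK : ∀ n, IsKernel (K n))
    (h : ∀ z w, Tendsto (fun n => K n z w) atTop (𝓝 (L z w))) : IsKernel L := by
  rw [isKernel_iff]
  intro n x c
  refine ge_of_tendsto' (f := fun m => ∑ i, ∑ j, c i * conj (c j) * K m (x i) (x j))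
    (x := atTop) ?_ fun m => isKernel_iff.1 (hK m) n x c
  exact tendsto_finsetSum _ fun i _ => tendsto_finsetSum _ fun j _ => (h _ _).const_mul _

lemma IsKernel.pow {K : X → X → ℂ} (hK : IsKernel K) (n : ℕ) :
    IsKernel (fun z w => K z w ^ n) := by
  induction n with
  | zero => simpa using isKernel_const (X := X) zero_le_one
  | succ n ih => exact (ih.mul hK).congr fun z w => (pow_succ _ _).symm

lemma IsKernel.sum_range {K : ℕ → X → X → ℂ} (hK : ∀ n, IsKernel (K n)) (m : ℕ) :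
    IsKernel (fun z w => ∑ n ∈ Finset.range m, K n z w) := by
  induction m with
  | zero => simpa using isKernel_const (X := X) le_rfl
  | succ m ih => exact (ih.add (hK m)).congr fun z w => (Finset.sum_range_succ _ _).symm

lemma IsKernel.geom {K : X → X → ℂ} (hK : IsKernel K) (h : ∀ z w, ‖K z w‖ < 1) :
    IsKernel (fun z w => (1 - K z w)⁻¹) :=
  IsKernel.of_tendsto (fun m => IsKernel.sum_range (fun n => hK.pow n) m)
    fun z w => (hasSum_geometric_of_norm_lt_one (h z w)).tendsto_sum_nat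

lemma sum_inner_eq {E : Type} [NormedAddCommGroup E] [InnerProductSpace ℂ E] {n : ℕ}
    (u : Fin n → E) (c : Fin n → ℂ) :
    ∑ i, ∑ j, c i * conj (c j) * ⟪u j, u i⟫_ℂ = ⟪∑ i, c i • u i, ∑ i, c i • u i⟫_ℂ := by
  rw [inner_sum]
  refine Finset.sum_congr rfl fun i _ => ?_
  rw [sum_inner]
  refine Finset.sum_congr rfl fun j _ => ?_
  rw [inner_smul_left, inner_smul_right]
  ring

lemma isKernel_gram {E : Type} [NormedAddCommGroup E] [InnerProductSpace ℂ E] (φ : X → E) :
    IsKernel (fun z w => ⟪φ w, φ z⟫_ℂ) := by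
  rw [isKernel_iff]
  intro n x c
  rw [sum_inner_eq (fun i => φ (x i)) c, inner_self_eq_norm_sq_to_K]
  exact pow_nonneg (by simp) 2

/-- Cauchy-Schwarz in kernel form. -/
lemma isKernel_cs {E : Type} [NormedAddCommGroup E] [InnerProductSpace ℂ E] (φ : X → E) (a : E) :
    IsKernel (fun z w => ⟪a, a⟫_ℂ * ⟪φ w, φ z⟫_ℂ - ⟪a, φ z⟫_ℂ * conj ⟪a, φ w⟫_ℂ) := by
  rw [isKernel_iff]
  intro n x c
  set U := ∑ i, c i • φ (x i) with hU
  have h1 := sum_inner_eq (fun i => φ (x i)) c
  have h2 : ∑ i, ∑ j, c i * conj (c j) * (⟪a, φ (x i)⟫_ℂ * conj ⟪a, φ (x j)⟫_ℂ) =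
      ⟪a, U⟫_ℂ * conj ⟪a, U⟫_ℂ := by
    rw [hU, inner_sum, map_sum, Finset.sum_mul_sum]
    refine Finset.sum_congr rfl fun i _ => Finset.sum_congr rfl fun j _ => ?_
    rw [inner_smul_right, inner_smul_right, map_mul]
    ring
  have h3 : ∑ i, ∑ j, c i * conj (c j) *
      (⟪a, a⟫_ℂ * ⟪φ (x j), φ (x i)⟫_ℂ - ⟪a, φ (x i)⟫_ℂ * conj ⟪a, φ (x j)⟫_ℂ) =
      ⟪a, a⟫_ℂ * ⟪U, U⟫_ℂ - ⟪a, U⟫_ℂ * conj ⟪a, U⟫_ℂ := by
    rw [← h2, ← h1, Finset.mul_sum, ← Finset.sum_sub_distrib]
    refine Finset.sum_congr rfl fun i _ => ?_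
    rw [Finset.mul_sum, ← Finset.sum_sub_distrib]
    refine Finset.sum_congr rfl fun j _ => ?_
    ring
  rw [h3, inner_self_eq_norm_sq_to_K, inner_self_eq_norm_sq_to_K, Complex.mul_conj,
    Complex.normSq_eq_norm_sq]
  have h4 : ‖⟪a, U⟫_ℂ‖ ^ 2 ≤ ‖a‖ ^ 2 * ‖U‖ ^ 2 := by
    rw [← mul_pow]
    exact pow_le_pow_left₀ (norm_nonneg _) (norm_inner_le_norm _ _) 2
  have h5 : (0 : ℝ) ≤ ‖a‖ ^ 2 * ‖U‖ ^ 2 - ‖⟪a, U⟫_ℂ‖ ^ 2 := by linarith
  have h6 := Complex.zero_le_real.2 h5
  simpa using h6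

/-- Finitely supported functions, to be given the semi-inner product of a kernel. -/
def H0 (_K : X → X → ℂ) : Type := X →₀ ℂ

noncomputable instance (K : X → X → ℂ) : AddCommGroup (H0 K) :=
  inferInstanceAs (AddCommGroup (X →₀ ℂ))

noncomputable instance (K : X → X → ℂ) : Module ℂ (H0 K) :=
  inferInstanceAs (Module ℂ (X →₀ ℂ))

/-- The semi-inner product of a kernel. -/
noncomputable def ip (K : X → X → ℂ) (f g : X →₀ ℂ) : ℂ :=
  g.sum fun x b => f.sum fun y a => b * conj a * K x y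

lemma ip_conj {K : X → X → ℂ} (hK : IsKernel K) (f g : X →₀ ℂ) : conj (ip K g f) = ip K f g := by
  unfold ip
  rw [Finsupp.sum_comm]
  simp only [map_finsuppSum, map_mul, hK.herm, Complex.conj_conj]
  refine Finsupp.sum_congr fun x _ => Finsupp.sum_congr fun y _ => ?_
  ring

lemma ip_add (K : X → X → ℂ) (f g h : X →₀ ℂ) : ip K (f + g) h = ip K f h + ip K g h := by
  unfold ip
  rw [← Finsupp.sum_add]
  refine Finsupp.sum_congr fun x _ => ?_
  rw [Finsupp.sum_add_index']
  · simp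
  · intro y a a'
    simp [add_mul, mul_add]

lemma ip_smul (K : X → X → ℂ) (f g : X →₀ ℂ) (r : ℂ) : ip K (r • f) g = conj r * ip K f g := by
  unfold ip
  rw [Finsupp.mul_sum]
  refine Finsupp.sum_congr fun x _ => ?_
  rw [Finsupp.sum_smul_index (by simp), Finsupp.mul_sum]
  refine Finsupp.sum_congr fun y _ => ?_
  simp
  ring

/-- The semi-inner product core of a kernel. -/
@[reducible] noncomputable def core (K : X → X → ℂ) (hK : IsKernel K) :
    PreInnerProductSpace.Core ℂ (H0 K) where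
  inner f g := ip K f g
  conj_inner_symm f g := ip_conj hK f g
  re_inner_nonneg f := (Complex.nonneg_iff.1 (hK.finsupp f)).1
  add_left f g h := ip_add K f g h
  smul_left f g r := ip_smul K f g r

/-- Kolmogorov decomposition of a kernel. -/
theorem IsKernel.exists_gram {K : X → X → ℂ} (hK : IsKernel K) :
    ∃ (E : Type) (_ : NormedAddCommGroup E) (_ : InnerProductSpace ℂ E) (_ : CompleteSpace E)
      (φ : X → E), ∀ z w, K z w = ⟪φ w, φ z⟫_ℂ := by
  let c := core K hK
  let : SeminormedAddCommGroup (H0 K) := InnerProductSpace.Core.toSeminormedAddCommGroup (𝕜 := ℂ)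
  let : InnerProductSpace ℂ (H0 K) := InnerProductSpace.ofCore c
  refine ⟨UniformSpace.Completion (H0 K), inferInstance, inferInstance, inferInstance,
    fun x => ((show H0 K from Finsupp.single x 1 : H0 K) : UniformSpace.Completion (H0 K)), ?_⟩
  intro z w
  rw [UniformSpace.Completion.inner_coe]
  change K z w = ip K (Finsupp.single w 1) (Finsupp.single z 1)
  simp [ip]

/-- Riesz-Douglas lemma. -/
theorem exists_vector {H : Type} [NormedAddCommGroup H] [InnerProductSpace ℂ H] [CompleteSpace H]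
    (Φ : X → H) (f : X → ℂ) (h : IsKernel (fun z w => ⟪Φ w, Φ z⟫_ℂ - f z * conj (f w))) :
    ∃ a : H, ‖a‖ ≤ 1 ∧ ∀ z, ⟪a, Φ z⟫_ℂ = f z := by
  let L : (X →₀ ℂ) →ₗ[ℂ] H := Finsupp.linearCombination ℂ Φ
  let l : (X →₀ ℂ) →ₗ[ℂ] ℂ := Finsupp.linearCombination ℂ f
  have hb : ∀ c, ‖l c‖ ≤ ‖L c‖ := by
    intro c
    have h1 := h.finsupp c
    have h2 : (c.sum fun x a => c.sum fun y b => a * conj b * (⟪Φ y, Φ x⟫_ℂ - f x * conj (f y))) =
        ⟪L c, L c⟫_ℂ - l c * conj (l c) := by
      simp only [L, l, Finsupp.linearCombination_apply, Finsupp.sum]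
      rw [map_sum, Finset.sum_mul_sum, inner_sum, ← Finset.sum_sub_distrib]
      refine Finset.sum_congr rfl fun i _ => ?_
      rw [sum_inner, ← Finset.sum_sub_distrib]
      refine Finset.sum_congr rfl fun j _ => ?_
      simp only [inner_smul_left, inner_smul_right, smul_eq_mul, map_mul]
      ring
    rw [h2, inner_self_eq_norm_sq_to_K, Complex.mul_conj, Complex.normSq_eq_norm_sq] at h1
    have h3 : (0 : ℝ) ≤ ‖L c‖ ^ 2 - ‖l c‖ ^ 2 := by
      apply Complex.zero_le_real.1
      simpa using h1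
    exact (pow_le_pow_iff_left₀ (norm_nonneg _) (norm_nonneg _) two_ne_zero).1 (by linarith)
  have hker : LinearMap.ker L ≤ LinearMap.ker l := by
    intro c hc
    have := hb c
    rw [LinearMap.mem_ker] at hc ⊢
    rw [hc, norm_zero] at this
    exact norm_le_zero_iff.1 this
  let g0 : LinearMap.range L →ₗ[ℂ] ℂ :=
    ((LinearMap.ker L).liftQ l hker).comp (L.quotKerEquivRange.symm : _ →ₗ[ℂ] _)
  have hg0 : ∀ c, g0 ⟨L c, LinearMap.mem_range_self L c⟩ = l c := by
    intro c
    simp only [g0, LinearMap.comp_apply, LinearEquiv.coe_coe]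
    rw [LinearMap.quotKerEquivRange_symm_apply_image]
    simp
  have hg0b : ∀ v, ‖g0 v‖ ≤ 1 * ‖v‖ := by
    rintro ⟨v, c, rfl⟩
    rw [hg0 c, one_mul]
    exact hb c
  obtain ⟨g, hg1, hg2⟩ := exists_extension_norm_eq (LinearMap.range L) (g0.mkContinuous 1 hg0b)
  refine ⟨(InnerProductSpace.toDual ℂ H).symm g, ?_, fun z => ?_⟩
  · rw [LinearIsometryEquiv.norm_map, hg2]
    exact LinearMap.mkContinuous_norm_le _ zero_le_one _
  · rw [InnerProductSpace.toDual_symm_apply]
    have h1 : Φ z = L (Finsupp.single z 1) := by simp [L]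
    have h2 := hg1 ⟨L (Finsupp.single z 1), LinearMap.mem_range_self L _⟩
    rw [h1]
    simp only [LinearMap.mkContinuous_apply] at h2
    rw [h2, hg0]
    simp [l]

/-- Normalisation at a base point. -/
theorem IsKernel.normalize {P : X → X → ℂ} (hP : IsKernel P) (o : X) (ho : (P o o).re < 1) :
    IsKernel (fun z w => (1 - P z o) * (1 - P o w) - (1 - P z w) * (1 - P o o)) := by
  obtain ⟨E, _, _, _, φ, hφ⟩ := hP.exists_gram
  have h1 : (0 : ℂ) ≤ 1 - P o o := by
    have := Complex.nonneg_iff.1 (hP.diag_nonneg o)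
    rw [Complex.nonneg_iff]
    constructor
    · simp; linarith
    · simp; linarith [this.2]
  have h2 := ((isKernel_const (X := X) h1).mul (isKernel_gram fun z => φ z - φ o)).add
    (isKernel_dyad fun z => P z o - P o o)
  refine h2.congr fun z w => ?_
  simp only [map_sub, hP.herm, inner_sub_left, inner_sub_right, ← hφ]
  ring

end Pool.Agent.P.MP_232e98_an
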