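import Pool.Agent.P.MP_232e98_an.Analytic

set_option autoImplicit false

open scoped ComplexConjugate InnerProductSpace ComplexOrder Topology
open Filter Finset

namespace Pool.Agent.P.MP_232e98_an

variable {X : Type}

lemma norm_tau_lt (ζ : X → ℂ) (hζ : ∀ x, ‖ζ x‖ < 1) (z w : X) : ‖ζ z * conj (ζ w)‖ < 1 := by
  rw [norm_mul, RCLike.norm_conj]
  exact mul_lt_one_of_nonneg_of_lt_one_left (norm_nonneg _) (hζ z) (hζ w).le

lemma one_sub_ne_zero {t : ℂ} (h : ‖t‖ < 1) : 1 - t ≠ 0 := by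
  intro h0
  have : t = 1 := (sub_eq_zero.1 h0).symm
  rw [this] at h
  simp at h

lemma norm_half_lt {t : ℂ} (h : ‖t‖ < 1) : ‖t / 2‖ < 1 := by
  rw [norm_div]
  simp
  linarith

lemma isKernel_half (ζ : X → ℂ) : IsKernel (fun z w => ζ z * conj (ζ w) / 2) := by
  have h : (0 : ℂ) ≤ 1 / 2 := by
    simp
  exact ((isKernel_dyad ζ).mul (isKernel_const h)).congr fun z w => by ring

lemma isKernel_szego_half (ζ : X → ℂ) (hζ : ∀ x, ‖ζ x‖ < 1) :
    IsKernel (fun z w => (1 - ζ z * conj (ζ w) / 2)⁻¹) :=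
  (isKernel_half ζ).geom fun z w => norm_half_lt (norm_tau_lt ζ hζ z w)

theorem normalized (ζ : X → ℂ) (hζ : ∀ x, ‖ζ x‖ < 1)
    (hsurj : ∀ u : ℂ, ‖u‖ < 1 → ∃ x, ζ x = u) (F : X → X → ℂ) (hF : IsKernel F)
    (hF1 : ∀ x, (F x x).re < 1) (hs : IsKernel (fun z w => (1 - F z w)⁻¹))
    (h : IsKernel (fun z w => 1 - ((1 - ζ z * conj (ζ w) / 2) ^ 2)⁻¹ * (1 - F z w))) :
    IsKernel (fun z w => (1 - ζ z * conj (ζ w)) * (1 - F z w)⁻¹) := by
  obtain ⟨E, _, _, _, φ, hφ⟩ := hF.exists_gram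
  have hφ1 : ∀ x, ‖φ x‖ < 1 := by
    intro x
    have h1 := hF1 x
    rw [hφ, ← RCLike.re_to_complex, inner_self_eq_norm_sq] at h1
    exact (sq_lt_one_iff₀ (norm_nonneg _)).1 h1
  have h2 : (0 : ℂ) ≤ 2 := by norm_num
  have hk1 := h.add (((isKernel_half ζ).pow 2).mul
    (((isKernel_const h2).mul (isKernel_szego_half ζ hζ)).add ((isKernel_szego_half ζ hζ).pow 2)))
  have hk2 : IsKernel (fun z w => ((1 - ζ z * conj (ζ w) / 2) ^ 2)⁻¹ * ⟪φ w, φ z⟫_ℂ
      - ζ z * conj (ζ w)) := by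
    refine hk1.congr fun z w => ?_
    have h3 := one_sub_ne_zero (norm_half_lt (norm_tau_lt ζ hζ z w))
    rw [← hφ]
    generalize ζ z * conj (ζ w) = t at h3 ⊢
    obtain ⟨u, hu⟩ : ∃ u, u = 1 - t / 2 := ⟨_, rfl⟩
    rw [← hu] at h3 ⊢
    have ht : t = 2 - 2 * u := by rw [hu]; ring
    rw [ht]
    field_simp
    ring
  obtain ⟨a0, a1, ha01, hn, hrep⟩ := analytic ζ hζ hsurj φ (fun x => (hφ1 x).le) hk2
  have hn' : ⟪a0, a0⟫_ℂ + ⟪a1, a1⟫_ℂ = 1 := by
    rw [inner_self_eq_norm_sq_to_K, inner_self_eq_norm_sq_to_K]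
    have := congrArg (fun r : ℝ => (r : ℂ)) hn
    simpa using this
  have ha1 : ‖a1‖ ≤ 1 := by
    apply (sq_le_one_iff₀ (norm_nonneg _)).1
    nlinarith [sq_nonneg ‖a0‖]
  have hA : ∀ z, 1 - ⟪a1, φ z⟫_ℂ ≠ 0 := by
    intro z
    apply one_sub_ne_zero
    refine (norm_inner_le_norm _ _).trans_lt ?_
    exact mul_lt_one_of_nonneg_of_lt_one_right ha1 (norm_nonneg _) (hφ1 z)
  have hF0 : ∀ z w, 1 - F z w ≠ 0 := by
    intro z w
    apply one_sub_ne_zero
    rw [hφ]
    refine (norm_inner_le_norm _ _).trans_lt ?_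
    exact mul_lt_one_of_nonneg_of_lt_one_right (hφ1 w).le (norm_nonneg _) (hφ1 z)
  have hc : (0 : ℂ) ≤ ⟪a0, a0⟫_ℂ := by
    rw [inner_self_eq_norm_sq_to_K]
    exact pow_nonneg (by simp) 2
  have hG := (isKernel_cs (fun z => φ z - a1) a0).add
    (isKernel_dyad fun z => ⟪a1, φ z⟫_ℂ - ⟪a1, a1⟫_ℂ)
  have hfin := ((isKernel_const hc).add (hG.mul hs)).mul
    (isKernel_dyad fun z => (1 - ⟪a1, φ z⟫_ℂ)⁻¹)
  refine hfin.congr fun z w => ?_
  have e1 := hrep z
  have e2 := congrArg conj (hrep w)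
  have e3 := hA z
  have e4 : 1 - conj ⟪a1, φ w⟫_ℂ ≠ 0 := by
    intro h0
    apply hA w
    have := congrArg conj h0
    simpa using this
  have e5 := hF0 z w
  have e6 : ⟪φ w, a1⟫_ℂ = conj ⟪a1, φ w⟫_ℂ := (inner_conj_symm _ _).symm
  have e7 : conj ⟪a1, a1⟫_ℂ = ⟪a1, a1⟫_ℂ := inner_conj_symm _ _
  simp only [inner_sub_left, inner_sub_right, ha01, sub_zero, ← hφ, e6, map_sub, e7, map_inv₀,
    map_one]
  rw [map_add, map_mul] at e2
  have e8 : ⟪a0, a0⟫_ℂ = 1 - ⟪a1, a1⟫_ℂ := by linear_combination hn'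
  have e9 : ⟪a0, φ z⟫_ℂ = ζ z * (1 - ⟪a1, φ z⟫_ℂ) := by linear_combination -e1
  have e10 : conj ⟪a0, φ w⟫_ℂ = conj (ζ w) * (1 - conj ⟪a1, φ w⟫_ℂ) := by linear_combination -e2
  rw [e8, e9, e10]
  field_simp
  ring

theorem abstract_min (ζ : X → ℂ) (hζ : ∀ x, ‖ζ x‖ < 1)
    (hsurj : ∀ u : ℂ, ‖u‖ < 1 → ∃ x, ζ x = u) :
    IsMinCertificate (fun z w => ((1 - ζ z * conj (ζ w) / 2) ^ 2)⁻¹)
      (fun z w => (1 - ζ z * conj (ζ w))⁻¹) := by
  have hτ := norm_tau_lt ζ hζ
  refine ⟨⟨⟨(isKernel_dyad ζ).geom hτ, fun z w => inv_ne_zero (one_sub_ne_zero (hτ z w)),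
    fun _ => 1, fun z w => ζ z * conj (ζ w), fun _ => one_ne_zero, isKernel_dyad ζ,
    fun x => (Complex.re_le_norm _).trans_lt (hτ x x), fun z w => by simp⟩,
    _, ((isKernel_half ζ).pow 2).mul ((isKernel_szego_half ζ hζ).pow 2), fun z w => ?_⟩, ?_⟩
  · have h3 := one_sub_ne_zero (norm_half_lt (hτ z w))
    have h4 := one_sub_ne_zero (hτ z w)
    simp only
    generalize ζ z * conj (ζ w) = t at h3 h4 ⊢
    obtain ⟨u, hu⟩ : ∃ u, u = 1 - t / 2 := ⟨_, rfl⟩
    rw [← hu] at h3 ⊢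
    have ht : t / 2 = 1 - u := by rw [hu]; ring
    have ht' : 1 - t = 2 * u - 1 := by rw [hu]; ring
    rw [ht'] at h4 ⊢
    rw [ht, eq_mul_inv_iff_mul_eq₀ h4]
    field_simp
    ring
  · rintro t ⟨⟨ht, ht0, δ, F, hδ, hF, hF1, hrep⟩, h, hh, hb⟩
    obtain ⟨o, ho⟩ := hsurj 0 (by simp)
    have hF0 : ∀ z w, 1 - F z w ≠ 0 := by
      intro z w h0
      apply ht0 z w
      rw [hrep, h0, div_zero]
    have hδ' : ∀ x, conj (δ x) ≠ 0 := fun x => by simpa using hδ x
    have hzo : ∀ z, (1 - h z o) * t z o = 1 := by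
      intro z
      have := hb z o
      simp only [ho, map_zero, mul_zero, zero_div, sub_zero, one_pow, inv_one] at this
      exact this.symm
    have how : ∀ w, (1 - h o w) * t o w = 1 := by
      intro w
      have := hb o w
      simp only [ho, zero_mul, zero_div, sub_zero, one_pow, inv_one] at this
      exact this.symm
    have hpos : ∀ x, ∃ r : ℝ, 0 < r ∧ t x x = r := by
      intro x
      have h1 := Complex.nonneg_iff.1 (ht.diag_nonneg x)
      refine ⟨(t x x).re, lt_of_le_of_ne h1.1 fun h0 => ht0 x x ?_, ?_⟩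
      · exact Complex.ext h0.symm h1.2.symm
      · exact Complex.ext rfl (by simpa using h1.2.symm)
    obtain ⟨r, hr, hro⟩ := hpos o
    have hr' : (r : ℂ) ≠ 0 := by exact_mod_cast hr.ne'
    have hh1 : (h o o).re < 1 := by
      have h1 := hzo o
      rw [hro] at h1
      have h2 : h o o = ((1 - r⁻¹ : ℝ) : ℂ) := by
        push_cast
        field_simp
        linear_combination -h1
      rw [h2, Complex.ofReal_re]
      have := inv_pos.2 hr
      linarith
    set F' : X → X → ℂ := fun z w => 1 - t z o * t o w / (t z w * t o o) with hF'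
    have k1 : IsKernel F' := by
      refine ((hF.normalize o (hF1 o)).mul (isKernel_dyad fun z => (1 - F z o)⁻¹)).congr
        fun z w => ?_
      simp only [hF', hrep, map_inv₀, map_sub, map_one, hF.herm]
      have := hF0 z o
      have := hF0 o w
      have := hF0 z w
      have := hF0 o o
      have := hδ z
      have := hδ o
      have := hδ' w
      have := hδ' o
      field_simp
    have k2 : ∀ x, (F' x x).re < 1 := by
      intro x
      obtain ⟨q, hq, hqx⟩ := hpos x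
      have h1 : F' x x = ((1 - ‖t x o‖ ^ 2 / (q * r) : ℝ) : ℂ) := by
        simp only [hF']
        rw [← ht.herm x o, Complex.mul_conj', hqx, hro]
        push_cast
        rfl
      rw [h1, Complex.ofReal_re]
      have h2 : 0 < ‖t x o‖ := norm_pos_iff.2 (ht0 x o)
      have : 0 < ‖t x o‖ ^ 2 / (q * r) := by positivity
      linarith
    have k3 : IsKernel (fun z w => (1 - F' z w)⁻¹) := by
      refine ((ht.mul (isKernel_const (ht.diag_nonneg o))).mul
        (isKernel_dyad fun z => (t z o)⁻¹)).congr fun z w => ?_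
      simp only [hF', map_inv₀, ht.herm]
      have := ht0 z o
      have := ht0 o w
      have := ht0 z w
      have := ht0 o o
      field_simp
      ring
    have k4 : IsKernel (fun z w => 1 - ((1 - ζ z * conj (ζ w) / 2) ^ 2)⁻¹ * (1 - F' z w)) := by
      refine ((hh.normalize o hh1).mul (isKernel_dyad fun z => t z o)).congr fun z w => ?_
      have e0 := hb z w
      simp only at e0
      simp only [hF', ht.herm, e0]
      have e1 := hzo z
      have e2 := how w
      have e3 := hzo o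
      have := ht0 z w
      have := ht0 o o
      have e4 : 1 - h o o = (t o o)⁻¹ := eq_inv_of_mul_eq_one_left e3
      rw [e4]
      field_simp
      linear_combination (t o o) * ((1 - h o w) * t o w * e1 + e2)
    have k5 := normalized ζ hζ hsurj F' k1 k2 k3 k4
    have hri : (0 : ℂ) ≤ (t o o)⁻¹ := by
      rw [hro, ← Complex.ofReal_inv]
      exact Complex.zero_le_real.2 (inv_pos.2 hr).le
    refine ((k5.mul (isKernel_dyad fun z => t z o)).mul (isKernel_const hri)).congr fun z w => ?_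
    simp only [hF', ht.herm]
    have := ht0 z o
    have := ht0 o w
    have := ht0 z w
    have := ht0 o o
    have := one_sub_ne_zero (hτ z w)
    field_simp
    ring

theorem main :
    ∃ s : {z : ℂ // ‖z‖ < 1 / √2} → {z : ℂ // ‖z‖ < 1 / √2} → ℂ,
      (∀ z w, s z w = (1 - 2 * z.1 * (starRingEnd ℂ) w.1)⁻¹) ∧
      IsMinCertificate (fun z w => ((1 - z.1 * (starRingEnd ℂ) w.1) ^ 2)⁻¹) s := by
  have h2 : (0 : ℝ) < √2 := by positivity
  have h2' : ((√2 : ℝ) : ℂ) * ((√2 : ℝ) : ℂ) = 2 := by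
    rw [← Complex.ofReal_mul, Real.mul_self_sqrt (by norm_num)]
    simp
  have h := abstract_min (X := {z : ℂ // ‖z‖ < 1 / √2}) (fun z => ((√2 : ℝ) : ℂ) * z.1)
    (by
      intro x
      have hx := x.2
      rw [norm_mul, Complex.norm_real, Real.norm_of_nonneg h2.le]
      rw [lt_div_iff₀ h2] at hx
      linarith)
    (by
      intro u hu
      refine ⟨⟨u / ((√2 : ℝ) : ℂ), ?_⟩, ?_⟩
      · rw [norm_div, Complex.norm_real, Real.norm_of_nonneg h2.le]
        exact div_lt_div_of_pos_right hu h2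
      · have : ((√2 : ℝ) : ℂ) ≠ 0 := by exact_mod_cast h2.ne'
        simp only
        field_simp)
  have e : ∀ z w : ℂ, ((√2 : ℝ) : ℂ) * z * conj (((√2 : ℝ) : ℂ) * w) = 2 * z * conj w := by
    intro z w
    rw [map_mul, Complex.conj_ofReal]
    linear_combination (z * conj w) * h2'
  refine ⟨_, fun z w => rfl, ?_⟩
  simp only [e] at h
  have e2 : ∀ z w : ℂ, 2 * z * conj w / 2 = z * conj w := fun z w => by ring
  simp only [e2] at h
  exact h

end Pool.Agent.P.MP_232e98_an
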