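import Pool.Agent.P.MP_232e98_an.ThClosed

set_option autoImplicit false

open scoped ComplexConjugate InnerProductSpace ComplexOrder Topology
open Filter Finset

namespace Pool.Agent.P.MP_232e98_an.Th

variable {X : Type}

lemma kernel_comp {Y : Type} {K : X → X → ℂ} (hK : IsKernel K) (f : Y → X) :
    IsKernel (fun z w => K (f z) (f w)) :=
  fun n x c => hK n (fun i => f (x i)) c

lemma cert_comp {Y : Type} {k t : X → X → ℂ} (ht : IsCertificate k t) (f : Y → X) :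
    IsCertificate (fun z w => k (f z) (f w)) (fun z w => t (f z) (f w)) := by
  obtain ⟨⟨h1, h2, δ, F, h3, h4, h5, h6⟩, h, h7, h8⟩ := ht
  exact ⟨⟨kernel_comp h1 f, fun z w => h2 _ _, fun z => δ (f z), fun z w => F (f z) (f w),
    fun z => h3 _, kernel_comp h4 f, fun z => h5 _, fun z w => h6 _ _⟩,
    fun z w => h (f z) (f w), kernel_comp h7 f, fun z w => h8 _ _⟩

/-- Cauchy-Schwarz for two points. -/
lemma kernel_cs {K : X → X → ℂ} (hK : IsKernel K) (z w : X) :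
    ‖K z w‖ ^ 2 ≤ (K z z).re * (K w w).re := by
  obtain ⟨E, _, _, _, φ, hφ⟩ := hK.exists_gram
  rw [hφ z w, hφ z z, hφ w w, ← RCLike.re_to_complex, ← RCLike.re_to_complex,
    inner_self_eq_norm_sq, inner_self_eq_norm_sq, ← mul_pow, mul_comm]
  exact pow_le_pow_left₀ (norm_nonneg _) (norm_inner_le_norm _ _) 2

lemma kernel_sub_one {K : X → X → ℂ} (hK : IsKernel K) (o : X) (ho : ∀ z, K z o = 1) :
    IsKernel (fun z w => K z w - 1) := by
  obtain ⟨E, _, _, _, φ, hφ⟩ := hK.exists_gram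
  refine (isKernel_cs φ (φ o)).congr fun z w => ?_
  rw [← hφ, ← hφ, ← hφ, ← hφ, ho, ho, ho]
  simp

lemma diag_re {K : X → X → ℂ} (hK : IsKernel K) (x : X) :
    0 ≤ (K x x).re ∧ K x x = ((K x x).re : ℂ) := by
  have h1 := Complex.nonneg_iff.1 (hK.diag_nonneg x)
  exact ⟨h1.1, Complex.ext rfl (by simpa using h1.2.symm)⟩

/-- Normalisation of a certificate at a base point. -/
theorem norm_cert {k t : X → X → ℂ} (o : X) (hko : ∀ z, k z o = 1) (hok : ∀ w, k o w = 1)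
    (hc : IsCertificate k t) :
    ∃ F' : X → X → ℂ, IsKernel F' ∧ (∀ x, (F' x x).re < 1) ∧ (∀ z, F' z o = 0) ∧
      IsKernel (fun z w => 1 - k z w * (1 - F' z w)) ∧
      ∀ G : X → X → ℂ, IsKernel (fun z w => G z w / t z w) →
        IsKernel (fun z w => G z w * (1 - F' z w)) := by
  obtain ⟨⟨ht, ht0, δ, F, hδ, hF, hF1, hrep⟩, h, hh, hb⟩ := hc
  have hF0 : ∀ z w, 1 - F z w ≠ 0 := by
    intro z w h0
    apply ht0 z w
    rw [hrep, h0, div_zero]
  have hδ' : ∀ x, conj (δ x) ≠ 0 := fun x => by simpa using hδ x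
  have hzo : ∀ z, (1 - h z o) * t z o = 1 := fun z => by rw [← hb, hko]
  have how : ∀ w, (1 - h o w) * t o w = 1 := fun w => by rw [← hb, hok]
  have hpos : ∀ x, ∃ r : ℝ, 0 < r ∧ t x x = r := by
    intro x
    have h1 := Complex.nonneg_iff.1 (ht.diag_nonneg x)
    refine ⟨(t x x).re, lt_of_le_of_ne h1.1 fun h0 => ht0 x x ?_, ?_⟩
    · exact Complex.ext h0.symm h1.2.symm
    · exact Complex.ext rfl (by simpa using h1.2.symm)
  obtain ⟨r, hr, hro⟩ := hpos o
  have hr' : (r : ℂ) ≠ 0 := by exact_mod_cast hr.ne'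
  have hh1 : (h o o).re < 1 := by
    have h1 := hzo o
    rw [hro] at h1
    have h2 : h o o = ((1 - r⁻¹ : ℝ) : ℂ) := by
      push_cast
      field_simp
      linear_combination -h1
    rw [h2, Complex.ofReal_re]
    have := inv_pos.2 hr
    linarith
  set F' : X → X → ℂ := fun z w => 1 - t z o * t o w / (t z w * t o o) with hF'
  have k1 : IsKernel F' := by
    refine ((hF.normalize o (hF1 o)).mul (isKernel_dyad fun z => (1 - F z o)⁻¹)).congr
      fun z w => ?_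
    simp only [hF', hrep, map_inv₀, map_sub, map_one, hF.herm]
    have := hF0 z o
    have := hF0 o w
    have := hF0 z w
    have := hF0 o o
    have := hδ z
    have := hδ o
    have := hδ' w
    have := hδ' o
    field_simp
  have k2 : ∀ x, (F' x x).re < 1 := by
    intro x
    obtain ⟨q, hq, hqx⟩ := hpos x
    have h1 : F' x x = ((1 - ‖t x o‖ ^ 2 / (q * r) : ℝ) : ℂ) := by
      simp only [hF']
      rw [← ht.herm x o, Complex.mul_conj', hqx, hro]
      push_cast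
      rfl
    rw [h1, Complex.ofReal_re]
    have h2 : 0 < ‖t x o‖ := norm_pos_iff.2 (ht0 x o)
    have : 0 < ‖t x o‖ ^ 2 / (q * r) := by positivity
    linarith
  have k4 : IsKernel (fun z w => 1 - k z w * (1 - F' z w)) := by
    refine ((hh.normalize o hh1).mul (isKernel_dyad fun z => t z o)).congr fun z w => ?_
    have e0 := hb z w
    simp only [hF', ht.herm, e0]
    have e1 := hzo z
    have e2 := how w
    have e3 := hzo o
    have := ht0 z w
    have := ht0 o o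
    have e4 : 1 - h o o = (t o o)⁻¹ := eq_inv_of_mul_eq_one_left e3
    rw [e4]
    field_simp
    linear_combination (t o o) * ((1 - h o w) * t o w * e1 + e2)
  have hri : (0 : ℂ) ≤ (t o o)⁻¹ := by
    rw [hro, ← Complex.ofReal_inv]
    exact Complex.zero_le_real.2 (inv_pos.2 hr).le
  refine ⟨F', k1, k2, fun z => ?_, k4, fun G hG => ?_⟩
  · have := ht0 z o
    have := ht0 o o
    simp only [hF']
    field_simp
    ring
  · refine ((hG.mul (isKernel_dyad fun z => t z o)).mul (isKernel_const hri)).congr fun z w => ?_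
    simp only [hF', ht.herm]
    have := ht0 z w
    have := ht0 o o
    field_simp
    ring

/-- No certificate on the closed disc. -/
theorem no_cert_closed (ζ : X → ℂ) (hζ : ∀ x, ‖ζ x‖ ≤ 1)
    (hsurj : ∀ u : ℂ, ‖u‖ ≤ 1 → ∃ x, ζ x = u) (t : X → X → ℂ) :
    ¬ IsCertificate (fun z w => ((1 - ζ z * conj (ζ w) / 2) ^ 2)⁻¹) t := by
  intro hc
  obtain ⟨o, ho⟩ := hsurj 0 (by simp)
  obtain ⟨F, hF, hF1, -, h, -⟩ := norm_cert o (fun z => by simp [ho]) (fun w => by simp [ho]) hc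
  obtain ⟨E, _, _, _, φ, hφ⟩ := hF.exists_gram
  have hφ1 : ∀ x, ‖φ x‖ < 1 := by
    intro x
    have h1 := hF1 x
    rw [hφ, ← RCLike.re_to_complex, inner_self_eq_norm_sq] at h1
    exact (sq_lt_one_iff₀ (norm_nonneg _)).1 h1
  have hhalf : ∀ z w, ‖ζ z * conj (ζ w) / 2‖ < 1 := by
    intro z w
    have : ‖ζ z * conj (ζ w)‖ ≤ 1 := by
      rw [norm_mul, RCLike.norm_conj]
      exact mul_le_one₀ (hζ z) (norm_nonneg _) (hζ w)
    rw [norm_div]
    simp only [Complex.norm_ofNat]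
    linarith
  have hsz := (isKernel_half ζ).geom hhalf
  have h2 : (0 : ℂ) ≤ 2 := by norm_num
  have hk1 := h.add (((isKernel_half ζ).pow 2).mul
    (((isKernel_const h2).mul hsz).add (hsz.pow 2)))
  have hk2 : IsKernel (fun z w => ((1 - ζ z * conj (ζ w) / 2) ^ 2)⁻¹ * ⟪φ w, φ z⟫_ℂ
      - ζ z * conj (ζ w)) := by
    refine hk1.congr fun z w => ?_
    have h3 := one_sub_ne_zero (hhalf z w)
    rw [← hφ]
    generalize ζ z * conj (ζ w) = t at h3 ⊢
    obtain ⟨u, hu⟩ : ∃ u, u = 1 - t / 2 := ⟨_, rfl⟩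
    rw [← hu] at h3 ⊢
    have ht : t = 2 - 2 * u := by rw [hu]; ring
    rw [ht]
    field_simp
    ring
  obtain ⟨a0, a1, ha01, hn, hrep⟩ := analytic_le ζ hζ (fun u hu => hsurj u hu.le) φ
    (fun x => (hφ1 x).le) hk2
  obtain ⟨x, hx⟩ := hsurj 1 (by simp)
  have e1 := hrep x
  rw [hx, one_mul, ← inner_add_left] at e1
  have e2 : ‖a0 + a1‖ ^ 2 = 1 := by
    rw [@norm_add_sq ℂ, ha01]
    simp only [map_zero, mul_zero, add_zero]
    exact hn
  have e3 : ‖a0 + a1‖ = 1 := by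
    have := norm_nonneg (a0 + a1)
    nlinarith
  have e4 := norm_inner_le_norm (𝕜 := ℂ) (a0 + a1) (φ x)
  rw [← e1, e3, one_mul, norm_one] at e4
  exact absurd (hφ1 x) (not_lt.2 e4)

/-- Certificates pulled back along a map into the disc of radius `1 / √2`. -/
theorem cert_of_map {k : X → X → ℂ} (p d : X → ℂ) (hp : ∀ x, 2 * ‖p x‖ ^ 2 < 1)
    (hd : ∀ x, d x ≠ 0)
    (hk : ∀ z w, k z w = d z * conj (d w) * ((1 - p z * conj (p w)) ^ 2)⁻¹) :
    IsCertificate k (fun z w => d z * conj (d w) / (1 - 2 * (p z * conj (p w)))) := by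
  have h2 : (0 : ℂ) ≤ 2 := by norm_num
  have hn : ∀ z w, ‖2 * (p z * conj (p w))‖ < 1 := by
    intro z w
    rw [norm_mul, norm_mul, RCLike.norm_conj]
    simp only [Complex.norm_ofNat]
    nlinarith [hp z, hp w, sq_nonneg (‖p z‖ - ‖p w‖)]
  have hn' : ∀ z w, ‖p z * conj (p w)‖ < 1 := by
    intro z w
    have := hn z w
    rw [norm_mul] at this
    simp only [Complex.norm_ofNat] at this
    linarith [norm_nonneg (p z * conj (p w))]
  have hF : IsKernel (fun z w => 2 * (p z * conj (p w))) :=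
    (isKernel_const h2).mul (isKernel_dyad p)
  refine ⟨⟨((isKernel_dyad d).mul (hF.geom hn)).congr fun z w => (div_eq_mul_inv _ _).symm,
    fun z w => div_ne_zero (mul_ne_zero (hd z) (by simpa using hd w)) (one_sub_ne_zero (hn z w)),
    d, _, hd, hF, fun x => (Complex.re_le_norm _).trans_lt (hn x x), fun z w => rfl⟩,
    _, ((isKernel_dyad p).pow 2).mul (((isKernel_dyad p).geom hn').pow 2), fun z w => ?_⟩
  have h3 := one_sub_ne_zero (hn z w)
  have h4 := one_sub_ne_zero (hn' z w)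
  rw [hk]
  simp only
  generalize p z * conj (p w) = t at h3 h4 ⊢
  have h5 : 1 - t * 2 ≠ 0 := by rwa [mul_comm] at h3
  field_simp
  ring

/-- A normalised minimum certificate has the diagonal of `2 z conj w`. -/
theorem diag_ge (u : X → ℂ) (r : ℝ) (hr2 : 2 * r ^ 2 < 1)
    (hsurj : ∀ y : ℝ, 0 ≤ y → y < r → ∃ x, u x = y) (F : X → X → ℂ) (hF : IsKernel F)
    (hA : IsKernel (fun z w => 1 - ((1 - u z * conj (u w)) ^ 2)⁻¹ * (1 - F z w)))
    (hP : IsKernel (fun z w => (1 - 2 * (u z * conj (u w)))⁻¹ * (1 - F z w) - 1))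
    (x : X) (y : ℝ) (hy0 : 0 < y) (hyr : y < r) (hx : u x = y) : 2 * y ^ 2 ≤ (F x x).re := by
  have hdiag : ∀ (w : X) (v : ℝ), u w = v → 2 * v ^ 2 < 1 →
      ((1 - 2 * (u w * conj (u w)))⁻¹ * (1 - F w w) - 1).re
        = (2 * v ^ 2 - (F w w).re) / (1 - 2 * v ^ 2) ∧
      (F w w).re ≤ 2 * v ^ 2 ∧ 2 * v ^ 2 - v ^ 4 ≤ (F w w).re := by
    intro w v hw hv
    obtain ⟨B, hB⟩ : ∃ B : ℝ, F w w = B := ⟨_, (diag_re hF w).2⟩
    have h1 : (1 : ℝ) - 2 * v ^ 2 ≠ 0 := by linarith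
    have h1' : (1 : ℝ) - v ^ 2 ≠ 0 := by nlinarith [sq_nonneg v]
    have e1 : (1 - 2 * (u w * conj (u w)))⁻¹ * (1 - F w w) - 1 =
        (((1 - 2 * (v * v))⁻¹ * (1 - B) - 1 : ℝ) : ℂ) := by
      rw [hw, hB, Complex.conj_ofReal]
      push_cast
      rfl
    have e2 : 1 - ((1 - u w * conj (u w)) ^ 2)⁻¹ * (1 - F w w) =
        ((1 - ((1 - v * v) ^ 2)⁻¹ * (1 - B) : ℝ) : ℂ) := by
      rw [hw, hB, Complex.conj_ofReal]
      push_cast
      rfl
    have e3 : (1 - 2 * (v * v))⁻¹ * (1 - B) - 1 = (2 * v ^ 2 - B) / (1 - 2 * v ^ 2) := by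
      rw [← sq]
      field_simp
      ring
    have h2 := (diag_re hP w).1
    have h3 := (diag_re hA w).1
    rw [e1, Complex.ofReal_re, e3] at h2
    rw [e2, Complex.ofReal_re] at h3
    rw [e1, Complex.ofReal_re, e3, hB, Complex.ofReal_re]
    refine ⟨rfl, ?_, ?_⟩
    · have h4 : (0 : ℝ) < 1 - 2 * v ^ 2 := by linarith
      have := (div_nonneg_iff.1 h2).resolve_right (fun h => absurd h.2 (not_le.2 h4))
      linarith [this.1]
    · have h4 : (0 : ℝ) < (1 - v * v) ^ 2 := by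
        rw [← sq]
        positivity
      have h5 : ((1 - v * v) ^ 2)⁻¹ * (1 - B) ≤ 1 := by linarith
      rw [inv_mul_le_iff₀ h4] at h5
      nlinarith
  have hy2 : 2 * y ^ 2 < 1 := by nlinarith
  obtain ⟨hx1, hx2, hx3⟩ := hdiag x y hx hy2
  set A := (F x x).re with hAdef
  have hA0 : 0 ≤ A := (diag_re hF x).1
  set M : ℝ := 1 / (1 - 2 * y ^ 2) with hM
  have hM0 : 0 < M := by
    have : 0 < 1 - 2 * y ^ 2 := by linarith
    positivity
  have key : ∀ v : ℝ, 0 < v → v ≤ y → M * v ≤ 2 * y → (2 * y - M * v) ^ 2 ≤ 2 * A := by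
    intro v hv0 hvy hvM
    obtain ⟨w, hw⟩ := hsurj v hv0.le (by linarith)
    have hv2 : 2 * v ^ 2 < 1 := by nlinarith
    obtain ⟨hw1, hw2, hw3⟩ := hdiag w v hw hv2
    have c1 := kernel_cs hF x w
    have c2 := kernel_cs hP x w
    rw [hx1, hw1] at c2
    have hpx : (2 * y ^ 2 - A) / (1 - 2 * y ^ 2) ≤ M := by
      rw [hM]
      apply div_le_div_of_nonneg_right _ (by linarith)
      linarith
    have hpw : (2 * v ^ 2 - (F w w).re) / (1 - 2 * v ^ 2) ≤ M * v ^ 4 := by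
      rw [hM, div_mul_eq_mul_div, one_mul]
      apply div_le_div₀ (by positivity) (by linarith) (by linarith)
      nlinarith
    have hpw0 : 0 ≤ (2 * v ^ 2 - (F w w).re) / (1 - 2 * v ^ 2) :=
      div_nonneg (by linarith) (by linarith)
    have c3 : ‖(1 - 2 * (u x * conj (u w)))⁻¹ * (1 - F x w) - 1‖ ≤ M * v ^ 2 := by
      apply (pow_le_pow_iff_left₀ (norm_nonneg _) (by positivity) two_ne_zero).1
      refine c2.trans ((mul_le_mul hpx hpw hpw0 hM0.le).trans (le_of_eq ?_))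
      ring
    have hyv : 0 < 1 - 2 * (y * v) := by nlinarith
    have hyv' : ((1 - 2 * (y * v) : ℝ) : ℂ) ≠ 0 := by exact_mod_cast hyv.ne'
    have e1 : ((2 * (y * v) : ℝ) : ℂ) - F x w = ((1 - 2 * (y * v) : ℝ) : ℂ) *
        ((1 - 2 * (u x * conj (u w)))⁻¹ * (1 - F x w) - 1) := by
      rw [hx, hw, Complex.conj_ofReal]
      push_cast at hyv' ⊢
      rw [mul_sub, mul_inv_cancel_left₀ hyv']
      ring
    have c4 : ‖((2 * (y * v) : ℝ) : ℂ) - F x w‖ ≤ M * v ^ 2 := by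
      rw [e1, norm_mul, Complex.norm_real, Real.norm_of_nonneg hyv.le]
      refine le_trans (mul_le_of_le_one_left (norm_nonneg _) ?_) c3
      nlinarith [mul_pos hy0 hv0]
    have c5 : 2 * (y * v) - M * v ^ 2 ≤ ‖F x w‖ := by
      have h1 := norm_sub_norm_le ((2 * (y * v) : ℝ) : ℂ) (F x w)
      rw [Complex.norm_real, Real.norm_of_nonneg (by positivity)] at h1
      linarith
    have c6 : (v * (2 * y - M * v)) ^ 2 ≤ ‖F x w‖ ^ 2 := by
      apply pow_le_pow_left₀ (mul_nonneg hv0.le (by linarith))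
      linarith
    have c7 : A * (F w w).re ≤ A * (2 * v ^ 2) := mul_le_mul_of_nonneg_left hw2 hA0
    have c8 : v ^ 2 * (2 * y - M * v) ^ 2 ≤ v ^ 2 * (2 * A) := by
      rw [← mul_pow]
      linarith
    exact le_of_mul_le_mul_left c8 (by positivity)
  have hlim : Tendsto (fun v : ℝ => (2 * y - M * v) ^ 2) (𝓝[>] 0) (𝓝 ((2 * y - M * 0) ^ 2)) := by
    apply Tendsto.mono_left _ nhdsWithin_le_nhds
    exact (Continuous.tendsto (by fun_prop) 0)
  have hfin : (2 * y - M * 0) ^ 2 ≤ 2 * A := by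
    refine le_of_tendsto hlim ?_
    have hpos : 0 < min y (2 * y / M) := lt_min hy0 (by positivity)
    filter_upwards [Ioo_mem_nhdsGT hpos] with v hv
    refine key v hv.1 (hv.2.le.trans (min_le_left _ _)) ?_
    have := hv.2.le.trans (min_le_right _ _)
    rw [le_div_iff₀ hM0] at this
    linarith
  nlinarith

lemma alg1 (a z w D1 D2 T : ℂ) (h1 : D1 = 1 - a * z) (h2 : D2 = 1 - a * w) (hT : T = 1 - z * w)
    (h1' : D1 ≠ 0) (h2' : D2 ≠ 0) (hT' : T ≠ 0) (ha : 1 - a ^ 2 ≠ 0) :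
    (T ^ 2)⁻¹ = (1 - a ^ 2) / D1 ^ 2 * ((1 - a ^ 2) / D2 ^ 2) *
      ((1 - (z - a) / D1 * ((w - a) / D2)) ^ 2)⁻¹ := by
  have e : 1 - (z - a) / D1 * ((w - a) / D2) = (1 - a ^ 2) * T / (D1 * D2) := by
    field_simp
    rw [h1, h2, hT]
    ring
  rw [e]
  generalize 1 - a ^ 2 = S at ha
  field_simp

lemma alg2 (a z w D1 D2 : ℂ) (h1 : D1 = 1 - a * z) (h2 : D2 = 1 - a * w)
    (h1' : D1 ≠ 0) (h2' : D2 ≠ 0) :
    1 - 2 * a ^ 2 + a * z + a * w - (2 - a ^ 2) * (z * w) =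
      D1 * D2 * (1 - 2 * ((z - a) / D1 * ((w - a) / D2))) := by
  field_simp
  rw [h1, h2]
  ring

lemma alg3 (S D1 D2 T G : ℂ) (h1' : D1 ≠ 0) (h2' : D2 ≠ 0) (hS : S ≠ 0) :
    S / D1 ^ 2 * (S / D2 ^ 2) / T * G * (D1 / S * (D2 / S)) = (D1 * D2 * T)⁻¹ * G := by
  by_cases hT : T = 0
  · simp [hT]
  · field_simp

/-- No minimum certificate on a disc of radius below `1 / √2`. -/
theorem no_min_small (u : X → ℂ) (r : ℝ) (hr0 : 0 < r) (hr2 : 2 * r ^ 2 < 1)
    (hu : ∀ x, ‖u x‖ < r) (hsurj : ∀ y : ℝ, 0 ≤ y → y < r → ∃ x, u x = y) (s : X → X → ℂ) :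
    ¬ IsMinCertificate (fun z w => ((1 - u z * conj (u w)) ^ 2)⁻¹) s := by
  rintro ⟨hc, hmin⟩
  obtain ⟨o, ho⟩ := hsurj 0 le_rfl hr0
  rw [Complex.ofReal_zero] at ho
  obtain ⟨F, hF, -, hFo, hA, hG⟩ :=
    norm_cert o (fun z => by simp [ho]) (fun w => by simp [ho]) hc
  have hu2 : ∀ x, 2 * ‖u x‖ ^ 2 < 1 := fun x => by nlinarith [hu x, norm_nonneg (u x)]
  have t0 := cert_of_map (k := fun z w => ((1 - u z * conj (u w)) ^ 2)⁻¹) u (fun _ => 1) hu2
    (fun _ => one_ne_zero) (fun z w => by simp)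
  have hP : IsKernel (fun z w => (1 - 2 * (u z * conj (u w)))⁻¹ * (1 - F z w) - 1) := by
    refine kernel_sub_one ((hG _ (hmin _ t0)).congr fun z w => by simp) o fun z => ?_
    simp [ho, hFo]
  set y : ℝ := r / 2 with hy
  have hy0 : 0 < y := by positivity
  obtain ⟨x, hx⟩ := hsurj y hy0.le (by linarith)
  have hdiag := diag_ge u r hr2 hsurj F hF hA hP x y hy0 (by linarith) hx
  have hr1 : r < 1 := by nlinarith
  set a : ℝ := min (r / 8) ((1 - 2 * r ^ 2) / 8) with ha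
  have ha0 : 0 < a := lt_min (by positivity) (by linarith)
  have ha1 : a ≤ r / 8 := min_le_left _ _
  have ha2 : a ≤ (1 - 2 * r ^ 2) / 8 := min_le_right _ _
  have hden : ∀ z, 1 - (a : ℂ) * u z ≠ 0 := by
    intro z
    apply one_sub_ne_zero
    rw [norm_mul, Complex.norm_real, Real.norm_of_nonneg ha0.le]
    nlinarith [hu z, norm_nonneg (u z)]
  have hden' : ∀ z, 1 - (a : ℂ) * conj (u z) ≠ 0 := by
    intro z h0
    apply hden z
    have := congrArg conj h0
    simpa using this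
  have ha3 : (1 : ℂ) - (a : ℂ) ^ 2 ≠ 0 := by
    have : (1 : ℝ) - a ^ 2 ≠ 0 := by nlinarith
    exact_mod_cast this
  have hp : ∀ z, 2 * ‖(u z - a) / (1 - a * u z)‖ ^ 2 < 1 := by
    intro z
    have h0 : 0 < ‖1 - (a : ℂ) * u z‖ ^ 2 := by
      have := norm_pos_iff.2 (hden z)
      positivity
    rw [norm_div, div_pow, ← mul_div_assoc, div_lt_one h0, Complex.sq_norm, Complex.sq_norm,
      Complex.normSq_apply, Complex.normSq_apply]
    have h1 : (u z).re * (u z).re + (u z).im * (u z).im < r ^ 2 := by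
      rw [← Complex.normSq_apply, ← Complex.sq_norm]
      exact pow_lt_pow_left₀ (hu z) (norm_nonneg _) two_ne_zero
    have h2 : -r ≤ (u z).re := by
      have := Complex.abs_re_le_norm (u z)
      have := neg_abs_le (u z).re
      linarith [hu z]
    simp only [Complex.sub_re, Complex.sub_im, Complex.mul_re, Complex.mul_im, Complex.ofReal_re,
      Complex.ofReal_im, Complex.one_re, Complex.one_im]
    nlinarith [mul_le_mul_of_nonneg_left h2 ha0.le, sq_nonneg (a * (u z).re),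
      sq_nonneg (a * (u z).im), mul_le_mul_of_nonneg_left ha1 ha0.le,
      mul_le_mul_of_nonneg_left hr1.le ha0.le]
  have ta := cert_of_map (k := fun z w => ((1 - u z * conj (u w)) ^ 2)⁻¹)
    (fun z => (u z - a) / (1 - a * u z)) (fun z => (1 - (a : ℂ) ^ 2) / (1 - a * u z) ^ 2) hp
    (fun z => div_ne_zero ha3 (pow_ne_zero 2 (hden z))) (by
      intro z w
      have h1 := hden z
      have h2 := hden' w
      have h3 : 1 - u z * conj (u w) ≠ 0 := by
        apply one_sub_ne_zero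
        rw [norm_mul, RCLike.norm_conj]
        nlinarith [hu z, hu w, norm_nonneg (u z), norm_nonneg (u w)]
      simp only [map_div₀, map_sub, map_mul, map_pow, map_one, Complex.conj_ofReal]
      exact alg1 a _ _ _ _ _ rfl rfl rfl h1 h2 h3 ha3)
  have hN : ∀ z w, 1 - 2 * (a : ℂ) ^ 2 + a * u z + a * conj (u w)
      - (2 - (a : ℂ) ^ 2) * (u z * conj (u w)) = (1 - a * u z) * (1 - a * conj (u w)) *
        (1 - 2 * ((u z - a) / (1 - a * u z) * conj ((u w - a) / (1 - a * u w)))) := by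
    intro z w
    have h1 := hden z
    have h2 := hden' w
    simp only [map_div₀, map_sub, map_mul, map_one, Complex.conj_ofReal]
    exact alg2 a _ _ _ _ rfl rfl h1 h2
  have hQ : IsKernel (fun z w => (1 - 2 * (a : ℂ) ^ 2 + a * u z + a * conj (u w)
      - (2 - (a : ℂ) ^ 2) * (u z * conj (u w)))⁻¹ * (1 - F z w)) := by
    refine ((hG _ (hmin _ ta)).mul
      (isKernel_dyad fun z => (1 - a * u z) / (1 - (a : ℂ) ^ 2))).congr fun z w => ?_
    have h1 := hden z
    have h2 := hden' w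
    rw [hN]
    generalize (1 - 2 * ((u z - a) / (1 - a * u z) * conj ((u w - a) / (1 - a * u w)))) = T
    simp only [map_div₀, map_sub, map_mul, map_pow, map_one, Complex.conj_ofReal]
    exact alg3 _ _ _ _ _ h1 h2 ha3
  have c1 := kernel_cs hQ x o
  obtain ⟨A, hAx⟩ : ∃ A : ℝ, F x x = A := ⟨_, (diag_re hF x).2⟩
  rw [hAx, Complex.ofReal_re] at hdiag
  set c : ℝ := 1 - 2 * a ^ 2 with hcdef
  set N : ℝ := c + 2 * a * y - (2 - a ^ 2) * y ^ 2 with hNdef
  have hc0 : 1 / 2 ≤ c := by nlinarith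
  have hc1 : c ≤ 1 := by nlinarith
  have hN0 : 0 < N := by nlinarith [mul_pos ha0 hy0, sq_nonneg (a * y)]
  have e1 : (1 - 2 * (a : ℂ) ^ 2 + a * u x + a * conj (u o)
      - (2 - (a : ℂ) ^ 2) * (u x * conj (u o)))⁻¹ * (1 - F x o) = (((c + a * y)⁻¹ : ℝ) : ℂ) := by
    rw [hx, ho, hFo, hcdef]
    push_cast
    simp
  have e2 : (1 - 2 * (a : ℂ) ^ 2 + a * u o + a * conj (u o)
      - (2 - (a : ℂ) ^ 2) * (u o * conj (u o)))⁻¹ * (1 - F o o) = ((c⁻¹ : ℝ) : ℂ) := by
    rw [ho, hFo, hcdef]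
    push_cast
    simp
  have e3 : (1 - 2 * (a : ℂ) ^ 2 + a * u x + a * conj (u x)
      - (2 - (a : ℂ) ^ 2) * (u x * conj (u x)))⁻¹ * (1 - F x x) = ((N⁻¹ * (1 - A) : ℝ) : ℂ) := by
    rw [hx, hAx, hNdef, hcdef, Complex.conj_ofReal]
    push_cast
    congr 2
    ring
  rw [e1, e2, e3, Complex.ofReal_re, Complex.ofReal_re, Complex.norm_real,
    Real.norm_eq_abs, sq_abs] at c1
  have hcy : 0 < c + a * y := by nlinarith [mul_pos ha0 hy0]
  have hcpos : 0 < c := by linarith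
  have c2 : c * N ≤ (1 - A) * (c + a * y) ^ 2 := by
    have h1 : (c + a * y)⁻¹ ^ 2 * ((c + a * y) ^ 2 * (c * N)) ≤
        N⁻¹ * (1 - A) * c⁻¹ * ((c + a * y) ^ 2 * (c * N)) :=
      mul_le_mul_of_nonneg_right c1 (by positivity)
    have h2 : (c + a * y)⁻¹ ^ 2 * ((c + a * y) ^ 2 * (c * N)) = c * N := by field_simp
    have h3 : N⁻¹ * (1 - A) * c⁻¹ * ((c + a * y) ^ 2 * (c * N)) = (1 - A) * (c + a * y) ^ 2 := by
      field_simp
    rwa [h2, h3] at h1
  have c3 : c * N ≤ (1 - 2 * y ^ 2) * (c + a * y) ^ 2 :=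
    c2.trans (mul_le_mul_of_nonneg_right (by linarith) (by positivity))
  have c4 : (1 - 2 * y ^ 2) * (c + a * y) ^ 2 - c * N =
      y ^ 2 * a * (a * (1 + 3 * c) - 4 * c * y - 2 * a * y ^ 2) := by
    rw [hNdef, hcdef]
    ring
  have c5 : a * (1 + 3 * c) - 4 * c * y - 2 * a * y ^ 2 < 0 := by
    nlinarith [mul_pos ha0 (pow_pos hy0 2), mul_le_mul_of_nonneg_left hc1 ha0.le,
      mul_le_mul_of_nonneg_right hc0 hy0.le]
  have c6 : y ^ 2 * a * (a * (1 + 3 * c) - 4 * c * y - 2 * a * y ^ 2) < 0 :=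
    mul_neg_of_pos_of_neg (by positivity) c5
  linarith

theorem main (r : ℝ) (hr0 : 0 < r) (hr : r ≠ 1 / √2)
    (s : {z : ℂ // ‖z‖ < r} → {z : ℂ // ‖z‖ < r} → ℂ) :
    ¬ IsMinCertificate (fun z w => ((1 - z.1 * (starRingEnd ℂ) w.1) ^ 2)⁻¹) s := by
  have h2 : (0 : ℝ) < √2 := by positivity
  have h2r : √2 * √2 = (2 : ℝ) := Real.mul_self_sqrt (by norm_num)
  rcases lt_or_gt_of_ne hr with h | h
  · refine no_min_small (fun z : {z : ℂ // ‖z‖ < r} => z.1) r hr0 ?_ (fun x => x.2) ?_ s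
    · rw [lt_div_iff₀ h2] at h
      nlinarith [mul_pos hr0 h2]
    · intro y hy0 hy
      exact ⟨⟨y, by rwa [Complex.norm_real, Real.norm_of_nonneg hy0]⟩, rfl⟩
  · intro hs
    have h2' : ((√2 : ℝ) : ℂ) * ((√2 : ℝ) : ℂ) = 2 := by
      rw [← Complex.ofReal_mul, h2r]
      simp
    have hc := cert_comp hs.1 (fun z : {z : ℂ // ‖z‖ ≤ 1 / √2} => ⟨z.1, z.2.trans_lt h⟩)
    refine no_cert_closed (X := {z : ℂ // ‖z‖ ≤ 1 / √2}) (fun z => ((√2 : ℝ) : ℂ) * z.1) ?_ ?_ _
      (by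
        have e : ∀ z w : ℂ,
            ((√2 : ℝ) : ℂ) * z * conj (((√2 : ℝ) : ℂ) * w) / 2 = z * conj w := by
          intro z w
          rw [map_mul, Complex.conj_ofReal]
          linear_combination (z * conj w / 2) * h2'
        simp only [e]
        exact hc)
    · intro x
      have hx := x.2
      rw [norm_mul, Complex.norm_real, Real.norm_of_nonneg h2.le]
      rw [le_div_iff₀ h2] at hx
      linarith
    · intro u hu
      refine ⟨⟨u / ((√2 : ℝ) : ℂ), ?_⟩, ?_⟩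
      · rw [norm_div, Complex.norm_real, Real.norm_of_nonneg h2.le]
        exact div_le_div_of_nonneg_right hu h2.le
      · have : ((√2 : ℝ) : ℂ) ≠ 0 := by exact_mod_cast h2.ne'
        simp only
        field_simp

end Pool.Agent.P.MP_232e98_an.Th
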